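import Pool.Agent.helper57.LQ.SpecB

/-!
# Project lq (MP_ebc808_nt), row HT7
-/

set_option autoImplicit false

open Finset PowerSeries

noncomputable section

namespace Pool.Agent.LQ

/-- The span of the powers of `tt` with exponents in `P`. -/
private def HT7_sp (P : ℕ → Prop) : Submodule (ZMod 2) FF :=
  Submodule.span (ZMod 2) {f : FF | ∃ j : ℕ, P j ∧ f = tt ^ j}

private theorem HT7_mem {P : ℕ → Prop} {j : ℕ} (h : P j) : tt ^ j ∈ HT7_sp P :=
  Submodule.subset_span ⟨j, h, rfl⟩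

private theorem HT7_mono {P Q : ℕ → Prop} (h : ∀ j, P j → Q j) {f : FF} (hf : f ∈ HT7_sp P) :
    f ∈ HT7_sp Q := by
  refine Submodule.span_mono ?_ hf
  rintro g ⟨j, hj, rfl⟩
  exact ⟨j, h j hj, rfl⟩

private theorem HT7_false {P : ℕ → Prop} (h : ∀ j, ¬ P j) {f : FF} (hf : f ∈ HT7_sp P) :
    f = 0 := by
  have h1 : {f : FF | ∃ j : ℕ, P j ∧ f = tt ^ j} = ∅ := by
    ext g
    simp only [Set.mem_ofPred_eq, Set.mem_empty_iff_false, iff_false]
    rintro ⟨j, hj, _⟩
    exact h j hj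
  unfold HT7_sp at hf
  rw [h1] at hf
  simpa using hf

private theorem HT7_mul {P Q : ℕ → Prop} (c : ℕ) (h : ∀ j, P j → Q (j + c)) {f : FF}
    (hf : f ∈ HT7_sp P) : tt ^ c * f ∈ HT7_sp Q := by
  refine Submodule.span_induction ?_ ?_ ?_ ?_ hf
  · rintro x ⟨j, hj, rfl⟩
    have h1 : tt ^ c * tt ^ j = tt ^ (j + c) := by
      rw [← pow_add, Nat.add_comm]
    rw [h1]
    exact HT7_mem (h j hj)
  · rw [mul_zero]
    exact Submodule.zero_mem _
  · intro x y _ _ hx hy
    rw [mul_add]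
    exact Submodule.add_mem _ hx hy
  · intro a x _ hx
    rw [mul_smul_comm]
    exact Submodule.smul_mem _ _ hx

private theorem HT7_sq {P Q : ℕ → Prop} (h : ∀ j, P j → Q (2 * j)) {f : FF}
    (hf : f ∈ HT7_sp P) : f ^ 2 ∈ HT7_sp Q := by
  refine Submodule.span_induction ?_ ?_ ?_ ?_ hf
  · rintro x ⟨j, hj, rfl⟩
    have h1 : (tt ^ j) ^ 2 = tt ^ (2 * j) := by
      rw [← pow_mul, Nat.mul_comm]
    rw [h1]
    exact HT7_mem (h j hj)
  · rw [zero_pow (by norm_num)]
    exact Submodule.zero_mem _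
  · intro x y _ _ hx hy
    have h1 : (x + y) ^ 2 = x ^ 2 + y ^ 2 + (x * y + x * y) := by ring
    rw [h1, add_self_FF, add_zero]
    exact Submodule.add_mem _ hx hy
  · intro a x _ hx
    rw [smul_pow]
    exact Submodule.smul_mem _ _ hx

private theorem HT7_U (h f : FF) (m : ℕ) :
    coeff (7 * m) (ex 7 h * f) = ∑ y ∈ antidiagonal m, coeff y.1 h * coeff (7 * y.2) f := by
  rw [PowerSeries.coeff_mul]
  symm
  refine Finset.sum_of_injOn (fun y : ℕ × ℕ => (7 * y.1, 7 * y.2)) ?_ ?_ ?_ ?_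
  · rintro ⟨a, b⟩ _ ⟨c, d⟩ _ hcd
    simp only [Prod.mk.injEq] at hcd
    obtain ⟨h1, h2⟩ := hcd
    simp only [Prod.mk.injEq]
    omega
  · rintro ⟨a, b⟩ hab
    simp only [mem_coe, HasAntidiagonal.mem_antidiagonal] at hab ⊢
    omega
  · rintro ⟨a, b⟩ hab hn
    simp only [HasAntidiagonal.mem_antidiagonal] at hab
    by_cases h7 : 7 ∣ a
    · exfalso
      apply hn
      obtain ⟨a', rfl⟩ := h7
      have hb : b = 7 * (m - a') := by omega
      refine ⟨(a', m - a'), ?_, ?_⟩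
      · simp only [mem_coe, HasAntidiagonal.mem_antidiagonal]
        omega
      · simp only [Prod.mk.injEq]
        exact ⟨trivial, hb.symm⟩
    · unfold ex
      simp only [coeff_mk, if_neg h7, zero_mul]
  · rintro ⟨a, b⟩ _
    unfold ex
    simp only [coeff_mk, dvd_mul_right, if_true]
    rw [Nat.mul_div_cancel_left a (by norm_num)]

private theorem HT7_T (hEXP : EXP_stmt) (m : ℕ) (f : FF) :
    coeff m (T 7 f) = coeff (7 * m) f + if 7 ∣ m then coeff (m / 7) f else 0 :=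
  hEXP.2.2.2.2.2 7 m f (by norm_num)

private theorem HT7_Tex (hEXP : EXP_stmt) (m : ℕ) (f : FF) :
    coeff m (T 7 f) = coeff (7 * m) f + coeff m (ex 7 f) := by
  rw [HT7_T hEXP]
  unfold ex
  rw [coeff_mk]

private def HT7_UU (f : FF) : FF := PowerSeries.mk fun m => coeff (7 * m) f

private theorem HT7_T' (hEXP : EXP_stmt) (f : FF) : T 7 f = HT7_UU f + ex 7 f := by
  ext m
  rw [HT7_Tex hEXP, map_add]
  unfold HT7_UU
  rw [coeff_mk]

private theorem HT7_UUadd (f g : FF) : HT7_UU (f + g) = HT7_UU f + HT7_UU g := by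
  ext m
  unfold HT7_UU
  rw [map_add, coeff_mk, coeff_mk, coeff_mk, map_add]

private theorem HT7_UUmul (h f : FF) : HT7_UU (ex 7 h * f) = h * HT7_UU f := by
  ext m
  unfold HT7_UU
  rw [coeff_mk, HT7_U, PowerSeries.coeff_mul]
  refine Finset.sum_congr rfl fun y _ => ?_
  rw [coeff_mk]

/-- The recursion (A). -/
private theorem HT7_A (hME7 : ME7_stmt) (hEXP : EXP_stmt) (k : ℕ) :
    T 7 (tt ^ (k + 8)) = tt ^ 4 * T 7 (tt ^ (k + 4)) + tt ^ 1 * T 7 (tt ^ (k + 1)) +
      tt ^ 8 * T 7 (tt ^ k) := by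
  have hex : ∀ j : ℕ, ex 7 (tt ^ j) = ex 7 tt ^ j := fun j =>
    (hEXP.1 7 tt tt (by norm_num)).2.2.2 j
  have hz : tt ^ 8 = ex 7 tt ^ 8 + (tt ^ 4 * ex 7 tt ^ 4 + tt * ex 7 tt) := by
    have h1 : tt ^ 8 + ex 7 tt ^ 8 = tt ^ 4 * ex 7 tt ^ 4 + tt * ex 7 tt := hME7
    have h2 := add_self_FF (ex 7 tt ^ 8)
    linear_combination h1 - h2
  have h0 : tt ^ (k + 8) = ex 7 (tt ^ 8) * tt ^ k + ex 7 (tt ^ 4) * tt ^ (k + 4) +
      ex 7 (tt ^ 1) * tt ^ (k + 1) := by
    rw [hex, hex, hex]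
    linear_combination tt ^ k * hz
  have h1 : HT7_UU (tt ^ (k + 8)) = tt ^ 8 * HT7_UU (tt ^ k) + tt ^ 4 * HT7_UU (tt ^ (k + 4)) +
      tt ^ 1 * HT7_UU (tt ^ (k + 1)) := by
    rw [h0, HT7_UUadd, HT7_UUadd, HT7_UUmul, HT7_UUmul, HT7_UUmul]
  have hz' : ex 7 tt ^ 8 = tt ^ 8 + (tt ^ 4 * ex 7 tt ^ 4 + tt * ex 7 tt) := by
    have h1 : tt ^ 8 + ex 7 tt ^ 8 = tt ^ 4 * ex 7 tt ^ 4 + tt * ex 7 tt := hME7
    have h2 := add_self_FF (tt ^ 8)
    linear_combination h1 - h2
  have h2 : ex 7 (tt ^ (k + 8)) = tt ^ 8 * ex 7 (tt ^ k) + tt ^ 4 * ex 7 (tt ^ (k + 4)) +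
      tt ^ 1 * ex 7 (tt ^ (k + 1)) := by
    rw [hex, hex, hex, hex]
    linear_combination (ex 7 tt) ^ k * hz'
  rw [HT7_T' hEXP, HT7_T' hEXP, HT7_T' hEXP, HT7_T' hEXP, h1, h2]
  ring

private theorem HT7_p0 (hEXP : EXP_stmt) : T 7 (tt ^ 0) = 0 := by
  ext m
  rw [HT7_T hEXP, pow_zero, map_zero]
  rw [PowerSeries.coeff_one]
  by_cases hm : m = 0
  · subst hm
    simp only [mul_zero, if_true, dvd_zero, Nat.zero_div, PowerSeries.coeff_one]
    decide
  · have h1 : 7 * m ≠ 0 := by omega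
    rw [if_neg h1]
    by_cases h7 : 7 ∣ m
    · rw [if_pos h7, PowerSeries.coeff_one]
      have h2 : m / 7 ≠ 0 := by omega
      rw [if_neg h2, add_zero]
    · rw [if_neg h7, add_zero]

private theorem HT7_tdl (hTDL : TDL_stmt) (k : ℕ) (hk : 1 ≤ k) :
    T 7 (tt ^ k) ∈ HT7_sp (fun j => 1 ≤ j ∧ j ≤ k ∧ j % 24 = 7 * k % 24) :=
  hTDL 7 (by norm_num) (by norm_num) k hk

private theorem HT7_small (hTDL : TDL_stmt) (k : ℕ)
    (hk : k = 1 ∨ k = 2 ∨ k = 3 ∨ k = 5 ∨ k = 6) : T 7 (tt ^ k) = 0 := by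
  refine HT7_false ?_ (HT7_tdl hTDL k (by omega))
  intro j hj
  omega

private theorem HT7_p4 (hTDL : TDL_stmt) (hEXP : EXP_stmt) : T 7 (tt ^ 4) = 0 := by
  have h1 : tt ^ 4 = (tt ^ 2) ^ 2 := by rw [← pow_mul]
  rw [h1, hEXP.2.2.2.2.1 7 (tt ^ 2) (by decide), HT7_small hTDL 2 (by omega)]
  exact zero_pow (by norm_num)

/-- (D). -/
private theorem HT7_D (hME7 : ME7_stmt) (hTDL : TDL_stmt) (hEXP : EXP_stmt) (k : ℕ) :
    T 7 (tt ^ k) ∈ HT7_sp (fun j => j + 6 ≤ k) := by
  induction k using Nat.strong_induction_on with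
  | _ k ih =>
    by_cases hk : k ≤ 7
    · by_cases h0 : k = 0
      · subst h0
        rw [HT7_p0 hEXP]
        exact Submodule.zero_mem _
      · by_cases h4 : k = 4
        · subst h4
          rw [HT7_p4 hTDL hEXP]
          exact Submodule.zero_mem _
        · refine HT7_mono ?_ (HT7_tdl hTDL k (by omega))
          intro j hj
          omega
    · obtain ⟨n, rfl⟩ : ∃ n, k = n + 8 := ⟨k - 8, by omega⟩
      rw [HT7_A hME7 hEXP]
      refine Submodule.add_mem _ (Submodule.add_mem _ ?_ ?_) ?_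
      · exact HT7_mul 4 (fun j hj => by omega) (ih (n + 4) (by omega))
      · exact HT7_mul 1 (fun j hj => by omega) (ih (n + 1) (by omega))
      · exact HT7_mul 8 (fun j hj => by omega) (ih n (by omega))

private theorem HT7_c7 (hTGR : TGR_stmt) : coeff 7 (tt ^ 7) = 1 := by
  classical
  have h0 : coeff 0 tt = 0 := by
    rw [hTGR.1 0]
    rw [if_neg]
    rintro ⟨u, hu, h⟩
    have : u = 0 := by nlinarith
    subst this
    revert hu
    decide
  have h1 : coeff 1 tt = 1 := by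
    rw [hTGR.1 1]
    rw [if_pos]
    exact ⟨1, by decide, by norm_num⟩
  have hX : (X : FF) ∣ tt := by
    rw [PowerSeries.X_dvd_iff]
    simpa using h0
  obtain ⟨g, hg⟩ := hX
  have hg0 : coeff 0 g = 1 := by
    have h2 : coeff (0 + 1) (X * g) = coeff 0 g := PowerSeries.coeff_succ_X_mul 0 g
    rw [← hg] at h2
    rw [← h2]
    exact h1
  rw [hg, mul_pow]
  have h3 : coeff (0 + 7) (X ^ 7 * g ^ 7) = coeff 0 (g ^ 7) := PowerSeries.coeff_X_pow_mul (g ^ 7) 7 0
  rw [Nat.zero_add] at h3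
  rw [h3]
  simp only [PowerSeries.coeff_zero_eq_constantCoeff, map_pow]
  have h4 : constantCoeff g = 1 := by
    rw [← PowerSeries.coeff_zero_eq_constantCoeff_apply]
    exact hg0
  rw [h4, one_pow]

private theorem HT7_p7 (hTDL : TDL_stmt) (hTGR : TGR_stmt) (hEXP : EXP_stmt) (hGRD : GRD_stmt) :
    T 7 (tt ^ 7) = tt := by
  obtain ⟨J, hJ, hs⟩ := hGRD.2.2 _ tt _ (HT7_tdl hTDL 7 (by norm_num))
  have hJ1 : ∀ j ∈ J, j = 1 := by
    intro j hj
    have := hJ j hj
    omega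
  have hc : coeff 1 (T 7 (tt ^ 7)) = 1 := by
    rw [HT7_T hEXP, mul_one, HT7_c7 hTGR]
    rw [if_neg (by norm_num), add_zero]
  by_cases h1 : 1 ∈ J
  · have hJ2 : J = {1} := by
      ext j
      simp only [mem_singleton]
      constructor
      · exact hJ1 j
      · rintro rfl
        exact h1
    rw [hs, hJ2, sum_singleton, pow_one]
  · exfalso
    have hJ2 : J = ∅ := by
      ext j
      constructor
      · intro hj
        exact absurd (hJ1 j hj ▸ hj) h1
      · intro hj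
        simp at hj
    rw [hJ2, sum_empty] at hs
    rw [hs, map_zero] at hc
    exact absurd hc (by decide)

/-- (E). -/
private theorem HT7_E (hME7 : ME7_stmt) (hTDL : TDL_stmt) (hTGR : TGR_stmt) (hEXP : EXP_stmt)
    (hGRD : GRD_stmt) (k : ℕ) (hk : k % 2 = 1) :
    T 7 (tt ^ k) + (if k % 12 = 7 ∨ k % 12 = 11 then tt ^ (k - 6) else 0) ∈
      HT7_sp (fun j => j + 6 < k) := by
  induction k using Nat.strong_induction_on with
  | _ k ih =>
    by_cases h8 : k < 8
    · by_cases h7 : k = 7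
      · subst h7
        rw [if_pos (by norm_num), HT7_p7 hTDL hTGR hEXP hGRD]
        have : tt + tt ^ (7 - 6) = 0 := by
          rw [show 7 - 6 = 1 from rfl, pow_one]
          exact add_self_FF tt
        rw [this]
        exact Submodule.zero_mem _
      · rw [HT7_small hTDL k (by omega), if_neg (by omega), add_zero]
        exact Submodule.zero_mem _
    · obtain ⟨n, rfl⟩ : ∃ n, k = n + 8 := ⟨k - 8, by omega⟩
      have e1 := HT7_mul (P := fun j => j + 6 < n + 4) (Q := fun j => j + 6 < n + 8) 4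
        (fun j hj => by omega) (ih (n + 4) (by omega) (by omega))
      have e2 := HT7_mul (P := fun j => j + 6 < n) (Q := fun j => j + 6 < n + 8) 8
        (fun j hj => by omega) (ih n (by omega) (by omega))
      have e3 : tt ^ 1 * T 7 (tt ^ (n + 1)) ∈ HT7_sp (fun j => j + 6 < n + 8) := by
        obtain ⟨r, hr⟩ : ∃ r, n + 1 = r * 2 := ⟨(n + 1) / 2, by omega⟩
        rw [hr, pow_mul, hEXP.2.2.2.2.1 7 (tt ^ r) (by decide)]
        refine HT7_mul (P := fun j => j + 12 ≤ n + 1) 1 (fun j hj => by omega) ?_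
        exact HT7_sq (fun j hj => by omega) (HT7_D hME7 hTDL hEXP r)
      have e4 := Submodule.add_mem _ (Submodule.add_mem _ e1 e3) e2
      have e5 : T 7 (tt ^ (n + 8)) + (if (n + 8) % 12 = 7 ∨ (n + 8) % 12 = 11 then
          tt ^ (n + 8 - 6) else 0) =
          tt ^ 4 * (T 7 (tt ^ (n + 4)) + (if (n + 4) % 12 = 7 ∨ (n + 4) % 12 = 11 then
            tt ^ (n + 4 - 6) else 0)) + tt ^ 1 * T 7 (tt ^ (n + 1)) +
          tt ^ 8 * (T 7 (tt ^ n) + (if n % 12 = 7 ∨ n % 12 = 11 then tt ^ (n - 6) else 0)) := by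
        rw [HT7_A hME7 hEXP]
        have hm : n % 12 = 1 ∨ n % 12 = 3 ∨ n % 12 = 5 ∨ n % 12 = 7 ∨ n % 12 = 9 ∨
            n % 12 = 11 := by omega
        rcases hm with h | h | h | h | h | h
        · rw [if_neg (by omega), if_neg (by omega), if_neg (by omega)]
          ring
        · rw [if_pos (by omega), if_pos (by omega), if_neg (by omega)]
          have h1 : n + 8 - 6 = (n + 4 - 6) + 4 := by omega
          rw [h1, pow_add]
          ring
        · rw [if_neg (by omega), if_neg (by omega), if_neg (by omega)]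
          ring
        · rw [if_neg (by omega), if_pos (by omega), if_pos (by omega)]
          have h1 : n + 4 - 6 = (n - 6) + 4 := by omega
          rw [h1]
          have h2 := add_self_FF (tt ^ (n - 6 + 8))
          linear_combination -h2
        · rw [if_neg (by omega), if_neg (by omega), if_neg (by omega)]
          ring
        · rw [if_pos (by omega), if_neg (by omega), if_pos (by omega)]
          have h1 : n + 8 - 6 = (n - 6) + 8 := by omega
          rw [h1, pow_add]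
          ring
      rw [e5]
      exact e4

theorem HT7 (hME7 : ME7_stmt) (hTDL : TDL_stmt) (hTGR : TGR_stmt) (hEXP : EXP_stmt)
    (hGRD : GRD_stmt) : HT7_stmt := by
  intro k hk
  have hk2 : k % 2 = 1 := by
    by_contra h
    have h2 : 2 ∣ k := by omega
    have h3 := Nat.dvd_gcd h2 (show 2 ∣ 6 by norm_num)
    rw [hk] at h3
    exact absurd h3 (by norm_num)
  have hk3 : k % 3 ≠ 0 := by
    intro h
    have h2 : 3 ∣ k := by omega
    have h3 := Nat.dvd_gcd h2 (show 3 ∣ 6 by norm_num)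
    rw [hk] at h3
    exact absurd h3 (by norm_num)
  have hE := HT7_E hME7 hTDL hTGR hEXP hGRD k hk2
  obtain ⟨J, hJ, hs⟩ := hGRD.2.2 _ tt _ hE
  obtain ⟨J', hJ', hs'⟩ := hGRD.2.2 _ tt _ (HT7_tdl hTDL k (by omega))
  have hexp : ∀ m : ℕ, coeff m (∑ j ∈ J, tt ^ j) ≠ 0 → m % 24 = (7 * k) % 24 := by
    intro m hm
    rw [← hs, map_add] at hm
    by_cases h1 : coeff m (T 7 (tt ^ k)) = 0
    · rw [h1, zero_add] at hm
      by_cases hc : k % 12 = 7 ∨ k % 12 = 11
      · rw [if_pos hc] at hm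
        have h2 := hTGR.2.2.2.1 (k - 6) m hm
        omega
      · rw [if_neg hc, map_zero] at hm
        exact absurd rfl hm
    · rw [hs', map_sum] at h1
      obtain ⟨j, hj, hj1⟩ := Finset.exists_ne_zero_of_sum_ne_zero h1
      have h2 := hTGR.2.2.2.1 j m hj1
      have h3 := (hJ' j hj).2.2
      omega
  have hJ24 := hGRD.1 J (7 * k) hexp
  rw [hs]
  refine Submodule.sum_mem _ fun j hj => ?_
  refine Submodule.subset_span ⟨j, ?_, ?_, rfl⟩
  · have := hJ j hj
    omega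
  · have h1 := hJ24 j hj
    have h2 : j % 2 = 1 := by omega
    have h3 : j % 3 ≠ 0 := by omega
    have h4 : Nat.Coprime j 2 := by
      rw [Nat.coprime_comm, Nat.Prime.coprime_iff_not_dvd (by norm_num)]
      omega
    have h5 : Nat.Coprime j 3 := by
      rw [Nat.coprime_comm, Nat.Prime.coprime_iff_not_dvd (by norm_num)]
      omega
    exact Nat.Coprime.mul_right h4 h5

end Pool.Agent.LQ
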