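import Pool.Agent.helper17.LQ.SpecQ2

/-!
# MP_07c750, project LQ, row QB5: few bad slopes, the version with fourth powers
-/

open MeasureTheory Set

set_option autoImplicit false

namespace Pool.Agent.LP

noncomputable section

theorem QB5_conj (U : Set ℝ) (X t : ℝ) : kk U X (-t) = (starRingEnd ℂ) (kk U X t) := by
  rw [kk, kk, ← integral_conj]
  refine integral_congr_ae (Filter.Eventually.of_forall fun u => ?_)
  show ee (-t * mm X u) * (md X u : ℂ) = (starRingEnd ℂ) (ee (t * mm X u) * (md X u : ℂ))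
  rw [map_mul, Complex.conj_ofReal, ee, ee, ← Complex.exp_conj, map_mul, Complex.conj_I, Complex.conj_ofReal]
  congr 2
  push_cast
  ring

theorem QB5_abs (U : Set ℝ) (X t : ℝ) : ‖kk U X |t|‖ = ‖kk U X t‖ := by
  rcases abs_cases t with ⟨h, _⟩ | ⟨h, _⟩
  · rw [h]
  · rw [h, QB5_conj, Complex.norm_conj]

/-- fourth powers -/
theorem QB5_four (s : Finset ℝ) (f : ℝ → ℝ) : (∑ t ∈ s, f t) ^ 4 ≤ (s.card : ℝ) ^ 3 * ∑ t ∈ s, f t ^ 4 := by
  have h1 : (∑ t ∈ s, f t) ^ 2 ≤ s.card * ∑ t ∈ s, f t ^ 2 := sq_sum_le_card_mul_sum_sq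
  have h2 : (∑ t ∈ s, f t ^ 2) ^ 2 ≤ s.card * ∑ t ∈ s, (f t ^ 2) ^ 2 := sq_sum_le_card_mul_sum_sq
  have h3 : ∑ t ∈ s, (f t ^ 2) ^ 2 = ∑ t ∈ s, f t ^ 4 := Finset.sum_congr rfl fun t _ => by ring
  rw [h3] at h2
  have h4 : (0 : ℝ) ≤ s.card := Nat.cast_nonneg _
  calc (∑ t ∈ s, f t) ^ 4 = ((∑ t ∈ s, f t) ^ 2) ^ 2 := by ring
    _ ≤ (s.card * ∑ t ∈ s, f t ^ 2) ^ 2 := pow_le_pow_left₀ (sq_nonneg _) h1 2
    _ = (s.card : ℝ) ^ 2 * (∑ t ∈ s, f t ^ 2) ^ 2 := by ring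
    _ ≤ (s.card : ℝ) ^ 2 * (s.card * ∑ t ∈ s, f t ^ 4) := mul_le_mul_of_nonneg_left h2 (by positivity)
    _ = _ := by ring

/-- folding -/
theorem QB5_fold (T : Finset ℝ) (g : ℝ → ℝ) (hg : ∀ t, g |t| = g t) (h0 : ∀ t, 0 ≤ g t) : ∑ t ∈ T, g t ≤ 2 * ∑ t ∈ T.image (fun t => |t|), g t := by
  rw [← Finset.sum_fiberwise_of_maps_to (g := fun t : ℝ => |t|) (t := T.image fun t => |t|) (fun t ht => Finset.mem_image_of_mem _ ht), Finset.mul_sum]
  refine Finset.sum_le_sum fun c _ => ?_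
  have h1 : ∑ t ∈ T.filter (fun t => |t| = c), g t = ((T.filter fun t => |t| = c).card : ℝ) * g c := by
    rw [← nsmul_eq_mul, ← Finset.sum_const]
    refine Finset.sum_congr rfl fun t ht => ?_
    rw [← (Finset.mem_filter.mp ht).2, hg]
  rw [h1]
  refine mul_le_mul_of_nonneg_right ?_ (h0 c)
  have h2 : T.filter (fun t => |t| = c) ⊆ {c, -c} := by
    intro t ht
    have h3 := (Finset.mem_filter.mp ht).2
    rw [Finset.mem_insert, Finset.mem_singleton, ← h3]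
    rcases abs_cases t with ⟨h, _⟩ | ⟨h, _⟩
    · exact Or.inl h.symm
    · right
      rw [h, neg_neg]
  have h3 := (Finset.card_le_card h2).trans Finset.card_le_two
  exact_mod_cast h3

/-- separated points in an interval -/
theorem QB5_sep {N R x : ℝ} (hN : 0 < N) (hR : 1 ≤ R) (XX : Finset ℝ) (hsep : ∀ X ∈ XX, ∀ X' ∈ XX, X ≠ X' → 1 ≤ N * |X - X'|) :
    ((XX.filter fun X' => |x - X'| ≤ R / N).card : ℝ) ≤ 3 * R := by
  have h1 : (XX.filter fun X' => |x - X'| ≤ R / N).card ≤ (Finset.Icc (0 : ℤ) ⌊2 * R⌋).card := by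
    refine Finset.card_le_card_of_injOn (fun X' => ⌊N * (X' - x) + R⌋) ?_ ?_
    · intro X' hX'
      have h2 := (Finset.mem_filter.mp (Finset.mem_coe.mp hX')).2
      rw [le_div_iff₀ hN] at h2
      have h6 := mul_le_mul_of_nonneg_right (neg_abs_le (x - X')) hN.le
      have h7 := mul_le_mul_of_nonneg_right (le_abs_self (x - X')) hN.le
      rw [Finset.mem_coe, Finset.mem_Icc]
      exact ⟨Int.floor_nonneg.mpr (by nlinarith), Int.floor_le_floor (by nlinarith)⟩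
    · intro X' hX' X'' hX'' h2
      by_contra hne
      have h3 := hsep X' (Finset.mem_filter.mp (Finset.mem_coe.mp hX')).1 X'' (Finset.mem_filter.mp (Finset.mem_coe.mp hX'')).1 hne
      have h4 := Int.abs_sub_lt_one_of_floor_eq_floor h2
      have h5 : N * (X' - x) + R - (N * (X'' - x) + R) = N * (X' - X'') := by ring
      rw [h5, abs_mul, abs_of_pos hN] at h4
      linarith
  have h2 : ((Finset.Icc (0 : ℤ) ⌊2 * R⌋).card : ℝ) ≤ 2 * R + 1 := by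
    rw [Int.card_Icc, sub_zero]
    have h3 : 0 ≤ ⌊2 * R⌋ + 1 := by
      have := Int.floor_nonneg.mpr (show (0 : ℝ) ≤ 2 * R by linarith)
      omega
    have h4 : (((⌊2 * R⌋ + 1).toNat : ℕ) : ℝ) = ((⌊2 * R⌋ + 1 : ℤ) : ℝ) := by
      exact_mod_cast congrArg (fun z : ℤ => (z : ℝ)) (Int.toNat_of_nonneg h3)
    rw [h4]
    push_cast
    linarith [Int.floor_le (2 * R)]
  have h3 : ((XX.filter fun X' => |x - X'| ≤ R / N).card : ℝ) ≤ ((Finset.Icc (0 : ℤ) ⌊2 * R⌋).card : ℝ) := by exact_mod_cast h1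
  linarith

/-- the folded set of frequencies in an interval -/
theorem QB5_int {N κ a y R : ℝ} (hR : 1 ≤ R) (T : Finset ℝ) (hT : RG N κ a T) :
    (((T.image fun t => |t|).filter fun t => |y - t| ≤ R).card : ℝ) ≤ 2 * (N ^ κ * R ^ a) := by
  have h1 : (T.image fun t => |t|).filter (fun t => |y - t| ≤ R) ⊆
      (T.filter fun t => |t - y| ≤ R).image (fun t => |t|) ∪ (T.filter fun t => |t - (-y)| ≤ R).image (fun t => |t|) := by
    intro c hc
    obtain ⟨h2, h3⟩ := Finset.mem_filter.mp hc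
    obtain ⟨t, ht, rfl⟩ := Finset.mem_image.mp h2
    rw [Finset.mem_union, Finset.mem_image, Finset.mem_image]
    rcases abs_cases t with ⟨h, _⟩ | ⟨h, _⟩
    · left
      refine ⟨t, Finset.mem_filter.mpr ⟨ht, ?_⟩, rfl⟩
      rw [h, abs_sub_comm] at h3
      exact h3
    · right
      refine ⟨t, Finset.mem_filter.mpr ⟨ht, ?_⟩, rfl⟩
      rw [h] at h3
      rwa [show t - -y = y - -t by ring]
  have h2 := (Finset.card_le_card h1).trans (Finset.card_union_le _ _)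
  have h3 : (((T.image fun t => |t|).filter fun t => |y - t| ≤ R).card : ℝ) ≤ ((T.filter fun t => |t - y| ≤ R).card : ℝ) + ((T.filter fun t => |t - (-y)| ≤ R).card : ℝ) := by
    exact_mod_cast h2.trans (Nat.add_le_add Finset.card_image_le Finset.card_image_le)
  have h4 := hT y R hR
  have h5 := hT (-y) R hR
  linarith

theorem QB5_proof (h : QL5_stmt) : QB5_stmt := by
  intro C1 hC1
  obtain ⟨C, hC, H⟩ := h C1 hC1
  refine ⟨96 * C * C1 ^ 2, by nlinarith [one_le_pow₀ hC1 (n := 2)], ?_⟩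
  intro a κ N T0 τ δ U XX T ha ha2 hκ hT0 hTN hτ hU hU2 hδ hT hsep hk
  have hN : 1 ≤ N := hT0.trans hTN
  have hN0 : 0 < N := by linarith
  have hlog : 0 ≤ Real.log N := Real.log_nonneg hN
  have hd0 : 0 ≤ δ := le_trans measureReal_nonneg hδ
  set T' : ℝ → Finset ℝ := fun X => (T X).image fun t => |t| with hT'
  set S : Finset (ℝ × ℝ) := (XX ×ˢ XX.biUnion T').filter fun p => p.2 ∈ T' p.1 with hS
  have hmem : ∀ p : ℝ × ℝ, p ∈ S ↔ p.1 ∈ XX ∧ p.2 ∈ T' p.1 := by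
    intro p
    rw [hS, Finset.mem_filter, Finset.mem_product, Finset.mem_biUnion]
    constructor
    · rintro ⟨⟨h1, _⟩, h2⟩
      exact ⟨h1, h2⟩
    · rintro ⟨h1, h2⟩
      exact ⟨⟨h1, p.1, h1, h2⟩, h2⟩
  have hNκ : 1 ≤ N ^ κ := Real.one_le_rpow hN hκ
  have hSQ : SQ N (6 * N ^ κ) (1 + a) S := by
    intro s _ R hR
    have hR0 : 0 < R := by linarith
    have h1 : S.filter (fun s' : ℝ × ℝ => |s.1 - s'.1| ≤ R / N ∧ |s.2 - s'.2| ≤ R) ⊆
        (XX.filter fun X' => |s.1 - X'| ≤ R / N).biUnion fun X' => ((T' X').filter fun t => |s.2 - t| ≤ R).image fun t => (X', t) := by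
      intro p hp
      obtain ⟨h2, h3, h4⟩ := Finset.mem_filter.mp hp
      obtain ⟨h5, h6⟩ := (hmem p).mp h2
      rw [Finset.mem_biUnion]
      refine ⟨p.1, Finset.mem_filter.mpr ⟨h5, h3⟩, ?_⟩
      rw [Finset.mem_image]
      exact ⟨p.2, Finset.mem_filter.mpr ⟨h6, h4⟩, rfl⟩
    have h2 := (Finset.card_le_card h1).trans Finset.card_biUnion_le
    have h3 : ((S.filter fun s' : ℝ × ℝ => |s.1 - s'.1| ≤ R / N ∧ |s.2 - s'.2| ≤ R).card : ℝ) ≤
        ∑ X' ∈ XX.filter (fun X' => |s.1 - X'| ≤ R / N), ((((T' X').filter fun t => |s.2 - t| ≤ R).image fun t => (X', t)).card : ℝ) := by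
      exact_mod_cast h2
    have h4 : ∀ X' ∈ XX.filter (fun X' => |s.1 - X'| ≤ R / N), ((((T' X').filter fun t => |s.2 - t| ≤ R).image fun t => (X', t)).card : ℝ) ≤ 2 * (N ^ κ * R ^ a) := by
      intro X' hX'
      have h5 : ((((T' X').filter fun t => |s.2 - t| ≤ R).image fun t => (X', t)).card : ℝ) ≤ (((T' X').filter fun t => |s.2 - t| ≤ R).card : ℝ) := by
        exact_mod_cast Finset.card_image_le
      exact h5.trans (QB5_int hR (T X') (hT X' (Finset.mem_filter.mp hX').1).2.1)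
    have h5 := h3.trans (Finset.sum_le_sum h4)
    rw [Finset.sum_const, nsmul_eq_mul] at h5
    have h6 := QB5_sep (x := s.1) hN0 hR XX hsep
    have h7 : 0 ≤ 2 * (N ^ κ * R ^ a) := by positivity
    calc _ ≤ _ := h5
      _ ≤ 3 * R * (2 * (N ^ κ * R ^ a)) := mul_le_mul_of_nonneg_right h6 h7
      _ = 6 * N ^ κ * (R ^ (1 : ℝ) * R ^ a) := by rw [Real.rpow_one]; ring
      _ = 6 * N ^ κ * R ^ (1 + a) := by rw [← Real.rpow_add hR0]
  have hin : ∀ s ∈ S, |s.1| ≤ 1 / 16 ∧ T0 ≤ s.2 ∧ s.2 ≤ C1 * N := by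
    intro s hs
    obtain ⟨h1, h2⟩ := (hmem s).mp hs
    obtain ⟨t, ht, h3⟩ := Finset.mem_image.mp h2
    obtain ⟨h4, _, h5⟩ := hT s.1 h1
    rw [← h3]
    exact ⟨h4, (h5 t ht).1, (h5 t ht).2⟩
  have hmain := H N T0 (6 * N ^ κ) (1 + a) δ U S hT0 hTN (by linarith) (by linarith) (by linarith) hU hU2 hδ hSQ hin
  rw [Finset.sum_finset_product S XX T' hmem] at hmain
  set M : ℝ := N ^ κ * (C1 * N) ^ a with hM
  have hM0 : 0 ≤ M := by positivity
  have hcard : ∀ X ∈ XX, ((T' X).card : ℝ) ≤ M := by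
    intro X hX
    obtain ⟨_, h1, h2⟩ := hT X hX
    have h3 := h1 0 (C1 * N) (by nlinarith)
    rw [Finset.filter_true_of_mem (fun t ht => by rw [sub_zero]; exact (h2 t ht).2)] at h3
    have h4 : ((T' X).card : ℝ) ≤ (T X).card := by exact_mod_cast Finset.card_image_le
    exact h4.trans h3
  have hone : ∀ X ∈ XX, τ ^ 4 ≤ 16 * M ^ 3 * ∑ t ∈ T' X, ‖kk U X t‖ ^ 4 := by
    intro X hX
    have h1 := (hk X hX).trans (QB5_fold (T X) (fun t => ‖kk U X t‖) (fun t => QB5_abs U X t) (fun t => norm_nonneg _))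
    have h2 := QB5_four (T' X) (fun t => ‖kk U X t‖)
    have h3 : (0 : ℝ) ≤ ∑ t ∈ T' X, ‖kk U X t‖ ^ 4 := Finset.sum_nonneg fun t _ => by positivity
    calc τ ^ 4 ≤ (2 * ∑ t ∈ T' X, ‖kk U X t‖) ^ 4 := pow_le_pow_left₀ hτ h1 4
      _ = 16 * (∑ t ∈ T' X, ‖kk U X t‖) ^ 4 := by ring
      _ ≤ 16 * (((T' X).card : ℝ) ^ 3 * ∑ t ∈ T' X, ‖kk U X t‖ ^ 4) := mul_le_mul_of_nonneg_left h2 (by norm_num)
      _ ≤ 16 * (M ^ 3 * ∑ t ∈ T' X, ‖kk U X t‖ ^ 4) := by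
          refine mul_le_mul_of_nonneg_left (mul_le_mul_of_nonneg_right ?_ h3) (by norm_num)
          exact pow_le_pow_left₀ (Nat.cast_nonneg _) (hcard X hX) 3
      _ = _ := by ring
  have hsum := Finset.sum_le_sum hone
  rw [Finset.sum_const, nsmul_eq_mul, ← Finset.mul_sum] at hsum
  have e1 : (C1 * N) ^ a ≤ C1 ^ (a : ℝ) * N ^ a := by
    rw [Real.mul_rpow (by linarith) hN0.le]
  have e2 : M ^ 3 * N ^ κ ≤ C1 ^ 2 * N ^ (3 * a + 4 * κ) := by
    have h1 : (C1 ^ a) ^ 3 ≤ C1 ^ 2 := by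
      rw [← Real.rpow_natCast (C1 ^ a) 3, ← Real.rpow_mul (by linarith), ← Real.rpow_natCast C1 2]
      refine Real.rpow_le_rpow_of_exponent_le hC1 ?_
      push_cast
      linarith
    have h2 : (N ^ a) ^ 3 * (N ^ κ) ^ 3 * N ^ κ = N ^ (3 * a + 4 * κ) := by
      rw [← Real.rpow_natCast (N ^ a) 3, ← Real.rpow_natCast (N ^ κ) 3, ← Real.rpow_mul hN0.le, ← Real.rpow_mul hN0.le, ← Real.rpow_add hN0, ← Real.rpow_add hN0]
      congr 1
      push_cast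
      ring
    calc M ^ 3 * N ^ κ = ((C1 * N) ^ a) ^ 3 * ((N ^ κ) ^ 3 * N ^ κ) := by rw [hM]; ring
      _ = (C1 ^ a) ^ 3 * ((N ^ a) ^ 3 * (N ^ κ) ^ 3 * N ^ κ) := by
          rw [Real.mul_rpow (by linarith) hN0.le]
          ring
      _ = (C1 ^ a) ^ 3 * N ^ (3 * a + 4 * κ) := by rw [h2]
      _ ≤ _ := mul_le_mul_of_nonneg_right h1 (by positivity)
  have hNT : 0 ≤ (N / T0) ^ 2 := by positivity
  calc (XX.card : ℝ) * τ ^ 4 ≤ 16 * M ^ 3 * ∑ X ∈ XX, ∑ t ∈ T' X, ‖kk U X t‖ ^ 4 := hsum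
    _ ≤ 16 * M ^ 3 * (C * (1 + Real.log N) ^ 3 * (N / T0) ^ 2 * (6 * N ^ κ) * δ) := mul_le_mul_of_nonneg_left hmain (by positivity)
    _ = 96 * C * (1 + Real.log N) ^ 3 * (N / T0) ^ 2 * δ * (M ^ 3 * N ^ κ) := by ring
    _ ≤ 96 * C * (1 + Real.log N) ^ 3 * (N / T0) ^ 2 * δ * (C1 ^ 2 * N ^ (3 * a + 4 * κ)) := by
        refine mul_le_mul_of_nonneg_left e2 ?_
        positivity
    _ = _ := by ring

end

end Pool.Agent.LP
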